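import Mathlib
import Pool.Agent.H96.NoDiff

set_option autoImplicit false
open Set

namespace Pool.Agent.Results.MP_3b0c1c_an.Generic

/-- `c` restricted to `I` is a unit speed C1 curve in `U` -/
def IsCurve {d : ℕ} (U : Set (EuclideanSpace ℝ (Fin d))) (I : Set ℝ)
    (c : ℝ → EuclideanSpace ℝ (Fin d)) : Prop :=
  I.OrdConnected ∧ (interior I).Nonempty ∧ ContDiffOn ℝ 1 c I ∧ MapsTo c I U ∧
    ∀ t ∈ I, ‖derivWithin c I t‖ = 1

/-- continuous functions on the closure of `U` that are nowhere differentiable along every curve -/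
def N {d : ℕ} (U : Set (EuclideanSpace ℝ (Fin d))) : Set C(closure U, ℝ) :=
  {f | ∀ I c, IsCurve U I c → ∀ t ∈ I,
    ¬ DifferentiableWithinAt ℝ (fun s => Function.extend Subtype.val f 0 (c s)) I t}

theorem result (d : ℕ) (U : Set (EuclideanSpace ℝ (Fin d))) (hU : Bornology.IsBounded U) :
    ∃ G ⊆ N U, IsGδ G ∧ Dense G := by
  have : CompactSpace (closure U) := isCompact_iff_compactSpace.mp hU.isCompact_closure
  refine ⟨_, fun f hf => ?_, Pool.Agent.H96.NoDiff.gdelta (closure U)⟩
  rintro I c ⟨h1, ⟨x, hx⟩, h3, h4, h5⟩ t ht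
  have hI : I.Nontrivial :=
    (infinite_of_mem_nhds x (mem_interior_iff_mem_nhds.mp hx)).nontrivial
  refine Pool.Agent.H96.NoDiff.not_diff (closure U) f (fun i n => mem_iInter.mp hf (i, n))
    (Function.extend Subtype.val f 0) (fun x => Subtype.val_injective.extend_apply _ _ x) I h1 hI c
    h3.continuousOn (h4.mono_right subset_closure) t ht _
    (h3.differentiableOn one_ne_zero t ht).hasDerivWithinAt fun h => ?_
  have := h5 t ht
  rw [h] at this
  simp at this

end Pool.Agent.Results.MP_3b0c1c_an.Generic
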